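import Mathlib

/-!
# MP_5df1f6_co : missing frustrated-triangle counts for graphs with few edges

Let `m(G)` be the number of triples spanning at least two edges of `G`.  Then
`f(G) = t (n - 2) - 2 m(G)` for a graph with `t` edges, and the set of values of `m(G)` over all
graphs with `t` edges is determined exactly.
-/

namespace Pool.Agent.Results.MP_5df1f6_co.MissingFrustratedCounts

open SimpleGraph

variable {V : Type*}

/-- The number of edges of `G` with both ends in `s`. -/
noncomputable def inside (G : SimpleGraph V) (s : Finset V) : ℕ :=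
  {e | e ∈ G.edgeSet ∧ ∀ x ∈ e, x ∈ s}.ncard

/-- The number of frustrated triples of `G`: triples inducing an odd number of edges. -/
noncomputable def frus (G : SimpleGraph V) : ℕ :=
  {s : Finset V | s.card = 3 ∧ Odd (inside G s)}.ncard

/-- The number of triples inducing at least two edges. -/
noncomputable def mm (G : SimpleGraph V) : ℕ :=
  {s : Finset V | s.card = 3 ∧ 2 ≤ inside G s}.ncard

/-- The set `S_t^{(n)}`. -/
def S (n t : ℕ) : Set ℤ :=
  {x | ∃ G : SimpleGraph (Fin n), G.edgeSet.ncard = t ∧ (frus G : ℤ) = x}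

section basic

variable [DecidableEq V]

lemma inside_three (G : SimpleGraph V) [DecidableRel G.Adj] {x y z : V} (hxy : x ≠ y)
    (hxz : x ≠ z) (hyz : y ≠ z) : inside G {x, y, z} =
      (if G.Adj x y then 1 else 0) + ((if G.Adj x z then 1 else 0) +
        (if G.Adj y z then 1 else 0)) := by
  classical
  have h : {e | e ∈ G.edgeSet ∧ ∀ w ∈ e, w ∈ ({x, y, z} : Finset V)} =
      ((({s(x, y), s(x, z), s(y, z)} : Finset (Sym2 V)).filter (· ∈ G.edgeSet) : Finset _) :
        Set (Sym2 V)) := by
    ext e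
    induction e using Sym2.ind with
    | _ a b =>
      simp only [Set.mem_ofPred_eq, mem_edgeSet, Finset.coe_filter, Finset.mem_insert,
        Finset.mem_singleton, Sym2.mem_iff, forall_eq_or_imp, forall_eq]
      constructor
      · rintro ⟨hab, ha, hb⟩
        have hne := hab.ne
        refine ⟨?_, hab⟩
        rcases ha with rfl | rfl | rfl <;> rcases hb with rfl | rfl | rfl <;>
          first
            | exact absurd rfl hne
            | simp
      · rintro ⟨h | h | h, hab⟩
        · rw [Sym2.eq_iff] at h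
          rcases h with ⟨rfl, rfl⟩ | ⟨rfl, rfl⟩ <;> simp [hab]
        · rw [Sym2.eq_iff] at h
          rcases h with ⟨rfl, rfl⟩ | ⟨rfl, rfl⟩ <;> simp [hab]
        · rw [Sym2.eq_iff] at h
          rcases h with ⟨rfl, rfl⟩ | ⟨rfl, rfl⟩ <;> simp [hab]
  unfold inside
  rw [h, Set.ncard_coe_finset, Finset.card_filter, Finset.sum_insert, Finset.sum_insert,
    Finset.sum_singleton]
  · simp only [mem_edgeSet]
  · rw [Finset.mem_singleton, Sym2.eq_iff]
    tauto
  · rw [Finset.mem_insert, Finset.mem_singleton, Sym2.eq_iff, Sym2.eq_iff]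
    tauto

lemma inside_le_three (G : SimpleGraph V) {s : Finset V} (hs : s.card = 3) : inside G s ≤ 3 := by
  classical
  obtain ⟨x, y, z, hxy, hxz, hyz, rfl⟩ := Finset.card_eq_three.1 hs
  rw [inside_three G hxy hxz hyz]
  split_ifs <;> norm_num

variable [Fintype V]

omit [DecidableEq V] in
lemma frus_eq (G : SimpleGraph V) [DecidablePred fun s : Finset V => Odd (inside G s)] :
    frus G = ∑ s ∈ Finset.powersetCard 3 (Finset.univ : Finset V),
      if Odd (inside G s) then 1 else 0 := by
  rw [← Finset.card_filter, ← Set.ncard_coe_finset]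
  unfold frus
  congr 1
  ext s
  simp [Finset.mem_powersetCard]

omit [DecidableEq V] in
lemma mm_eq (G : SimpleGraph V) :
    mm G = ∑ s ∈ Finset.powersetCard 3 (Finset.univ : Finset V),
      if 2 ≤ inside G s then 1 else 0 := by
  rw [← Finset.card_filter, ← Set.ncard_coe_finset]
  unfold mm
  congr 1
  ext s
  simp [Finset.mem_powersetCard]

/-- The number of triples containing a given pair. -/
lemma triples_through {x y : V} (hxy : x ≠ y) :
    ((Finset.powersetCard 3 (Finset.univ : Finset V)).filter fun s => x ∈ s ∧ y ∈ s).card =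
      Fintype.card V - 2 := by
  have h : (Finset.powersetCard 3 (Finset.univ : Finset V)).filter (fun s => x ∈ s ∧ y ∈ s) =
      ((Finset.univ : Finset V) \ {x, y}).image (fun z => {x, y, z}) := by
    ext s
    simp only [Finset.mem_filter, Finset.mem_powersetCard, Finset.subset_univ, true_and,
      Finset.mem_image, Finset.mem_sdiff, Finset.mem_univ, Finset.mem_insert,
      Finset.mem_singleton, not_or]
    constructor
    · rintro ⟨hs, hx, hy⟩
      obtain ⟨a, b, c, hab, hac, hbc, rfl⟩ := Finset.card_eq_three.1 hs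
      simp only [Finset.mem_insert, Finset.mem_singleton] at hx hy
      rcases hx with rfl | rfl | rfl <;> rcases hy with rfl | rfl | rfl
      · exact absurd rfl hxy
      · exact ⟨c, ⟨hac.symm, hbc.symm⟩, rfl⟩
      · exact ⟨b, ⟨hab.symm, hbc⟩, by ext w; simp; tauto⟩
      · exact ⟨c, ⟨hbc.symm, hac.symm⟩, by ext w; simp; tauto⟩
      · exact absurd rfl hxy
      · exact ⟨a, ⟨hab, hac⟩, by ext w; simp; tauto⟩
      · exact ⟨b, ⟨hbc, hab.symm⟩, by ext w; simp; tauto⟩
      · exact ⟨a, ⟨hac, hab⟩, by ext w; simp; tauto⟩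
      · exact absurd rfl hxy
    · rintro ⟨z, ⟨hzx, hzy⟩, rfl⟩
      refine ⟨?_, by simp, by simp⟩
      rw [Finset.card_eq_three]
      exact ⟨x, y, z, hxy, Ne.symm hzx, Ne.symm hzy, rfl⟩
  rw [h, Finset.card_image_of_injOn, Finset.card_sdiff_of_subset (Finset.subset_univ _),
    Finset.card_univ, Finset.card_pair hxy]
  intro a ha b hb hab
  simp only [Finset.coe_sdiff, Finset.coe_univ, Finset.coe_insert, Finset.coe_singleton,
    Set.mem_sdiff, Set.mem_univ, Set.mem_insert_iff, Set.mem_singleton_iff, true_and,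
    not_or] at ha hb
  have hab' : ({x, y, a} : Finset V) = {x, y, b} := hab
  have : a ∈ ({x, y, b} : Finset V) := by rw [← hab']; simp
  simp only [Finset.mem_insert, Finset.mem_singleton] at this
  rcases this with h | h | h
  · exact absurd h ha.1
  · exact absurd h ha.2
  · exact h

lemma sum_inside (G : SimpleGraph V) :
    ∑ s ∈ Finset.powersetCard 3 (Finset.univ : Finset V), inside G s =
      G.edgeSet.ncard * (Fintype.card V - 2) := by
  classical
  have h1 : ∀ s : Finset V, inside G s =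
      ∑ e ∈ G.edgeFinset, if ∀ x ∈ e, x ∈ s then 1 else 0 := by
    intro s
    rw [← Finset.card_filter, ← Set.ncard_coe_finset]
    unfold inside
    congr 1
    ext e
    simp
  simp only [h1]
  rw [Finset.sum_comm]
  have h2 : ∀ e ∈ G.edgeFinset, (∑ s ∈ Finset.powersetCard 3 (Finset.univ : Finset V),
      if ∀ x ∈ e, x ∈ s then 1 else 0) = Fintype.card V - 2 := by
    intro e he
    induction e using Sym2.ind with
    | _ x y =>
      rw [mem_edgeFinset, mem_edgeSet] at he
      rw [← triples_through he.ne, Finset.card_filter]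
      apply Finset.sum_congr rfl
      intro s _
      simp
  rw [Finset.sum_congr rfl h2, Finset.sum_const, smul_eq_mul, ← Set.ncard_coe_finset,
    coe_edgeFinset]

/-- The basic identity `f(G) + 2 m(G) = t (n - 2)`. -/
lemma frus_add (G : SimpleGraph V) :
    frus G + 2 * mm G = G.edgeSet.ncard * (Fintype.card V - 2) := by
  classical
  rw [← sum_inside, frus_eq, mm_eq, Finset.mul_sum, ← Finset.sum_add_distrib]
  apply Finset.sum_congr rfl
  intro s hs
  have h3 := inside_le_three G (Finset.mem_powersetCard.1 hs).2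
  have : inside G s = 0 ∨ inside G s = 1 ∨ inside G s = 2 ∨ inside G s = 3 := by omega
  rcases this with h | h | h | h <;> rw [h] <;> simp <;> decide

/-! ### Deleting a vertex -/

/-- The degree, as a cardinality of a set. -/
noncomputable def dg (G : SimpleGraph V) (v : V) : ℕ := (G.neighborSet v).ncard

omit [DecidableEq V] in
lemma dg_eq (G : SimpleGraph V) [DecidableRel G.Adj] (v : V) : dg G v = G.degree v := by
  unfold dg
  rw [← card_neighborFinset_eq_degree, ← Set.ncard_coe_finset, coe_neighborFinset]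

lemma ncard_delete (G : SimpleGraph V) (v : V) :
    (G.deleteIncidenceSet v).edgeSet.ncard + dg G v = G.edgeSet.ncard := by
  classical
  rw [dg_eq, ← coe_edgeFinset, ← coe_edgeFinset, Set.ncard_coe_finset, Set.ncard_coe_finset,
    card_edgeFinset_deleteIncidenceSet]
  have : G.degree v ≤ G.edgeFinset.card := by
    rw [← card_incidenceFinset_eq_degree]
    exact Finset.card_le_card (incidenceFinset_subset G v)
  omega

omit [DecidableEq V] in
lemma dg_delete_le (G : SimpleGraph V) (v w : V) : dg (G.deleteIncidenceSet v) w ≤ dg G w := by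
  apply Set.ncard_le_ncard _ (Set.toFinite _)
  intro x hx
  rw [mem_neighborSet, deleteIncidenceSet_adj] at hx
  exact hx.1

/-- The triples through `v` spanned by two neighbours of `v`. -/
lemma card_pairs_image (G : SimpleGraph V) [DecidableRel G.Adj] (v : V) :
    ((Finset.powersetCard 2 (G.neighborFinset v)).image (insert v)).card = (dg G v).choose 2 := by
  rw [Finset.card_image_of_injOn, Finset.card_powersetCard, dg_eq,
    card_neighborFinset_eq_degree]
  intro a ha b hb hab
  rw [Finset.mem_coe, Finset.mem_powersetCard] at ha hb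
  have h1 : v ∉ a := fun h => by simpa using ha.1 h
  have h2 : v ∉ b := fun h => by simpa using hb.1 h
  rw [← Finset.erase_insert h1, ← Finset.erase_insert h2, hab]

lemma choose_le_mm (G : SimpleGraph V) (v : V) : (dg G v).choose 2 ≤ mm G := by
  classical
  rw [← card_pairs_image, ← Set.ncard_coe_finset]
  apply Set.ncard_le_ncard _ (Set.toFinite _)
  intro s hs
  rw [Finset.mem_coe, Finset.mem_image] at hs
  obtain ⟨a, ha, rfl⟩ := hs
  rw [Finset.mem_powersetCard] at ha
  obtain ⟨ha, ha2⟩ := ha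
  obtain ⟨x, y, hxy, rfl⟩ := Finset.card_eq_two.1 ha2
  have hx : G.Adj v x := by
    rw [← mem_neighborFinset]; exact ha (by simp)
  have hy : G.Adj v y := by
    rw [← mem_neighborFinset]; exact ha (by simp)
  have hins : (insert v ({x, y} : Finset V)) = {v, x, y} := rfl
  rw [hins]
  refine ⟨?_, ?_⟩
  · rw [Finset.card_eq_three]
    exact ⟨v, x, y, hx.ne, hy.ne, hxy, rfl⟩
  · rw [inside_three G hx.ne hy.ne hxy, if_pos hx, if_pos hy]
    omega

omit [DecidableEq V] [Fintype V] in
lemma inside_delete (G : SimpleGraph V) {v : V} {s : Finset V} (hv : v ∉ s) :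
    inside (G.deleteIncidenceSet v) s = inside G s := by
  unfold inside
  congr 1
  ext e
  induction e using Sym2.ind with
  | _ x y =>
    simp only [Set.mem_ofPred_eq, mem_edgeSet, deleteIncidenceSet_adj, Sym2.mem_iff,
      forall_eq_or_imp, forall_eq]
    constructor
    · rintro ⟨⟨h, _, _⟩, h'⟩
      exact ⟨h, h'⟩
    · rintro ⟨h, hx, hy⟩
      exact ⟨⟨h, fun h => hv (h ▸ hx), fun h => hv (h ▸ hy)⟩, hx, hy⟩

/-- Deleting a vertex. -/
lemma mm_le_delete (G : SimpleGraph V) (v : V) :
    mm G ≤ (dg G v).choose 2 + (G.deleteIncidenceSet v).edgeSet.ncard +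
      mm (G.deleteIncidenceSet v) := by
  classical
  set J := G.deleteIncidenceSet v with hJ
  have hsub : {s : Finset V | s.card = 3 ∧ 2 ≤ inside G s} ⊆
      (((Finset.powersetCard 2 (G.neighborFinset v)).image (insert v) ∪
        J.edgeFinset.image (fun e => insert v e.toFinset) : Finset (Finset V)) :
        Set (Finset V)) ∪ {s : Finset V | s.card = 3 ∧ 2 ≤ inside J s} := by
    rintro s ⟨hs, h2⟩
    by_cases hv : v ∈ s
    · left
      have he : (s.erase v).card = 2 := by rw [Finset.card_erase_of_mem hv, hs]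
      obtain ⟨x, y, hxy, hxy'⟩ := Finset.card_eq_two.1 he
      have hsv : s = {v, x, y} := by
        rw [← Finset.insert_erase hv, hxy']
      have hvx : v ≠ x := by
        intro h
        have : x ∈ s.erase v := by rw [hxy']; simp
        rw [← h] at this
        simp at this
      have hvy : v ≠ y := by
        intro h
        have : y ∈ s.erase v := by rw [hxy']; simp
        rw [← h] at this
        simp at this
      rw [hsv, inside_three G hvx hvy hxy] at h2
      rw [Finset.mem_coe, Finset.mem_union, Finset.mem_image, Finset.mem_image]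
      by_cases hxyA : G.Adj x y
      · by_cases hboth : G.Adj v x ∧ G.Adj v y
        · left
          refine ⟨{x, y}, ?_, hsv.symm⟩
          rw [Finset.mem_powersetCard]
          refine ⟨?_, Finset.card_pair hxy⟩
          intro w hw
          rw [Finset.mem_insert, Finset.mem_singleton] at hw
          rw [mem_neighborFinset]
          rcases hw with rfl | rfl
          · exact hboth.1
          · exact hboth.2
        · right
          refine ⟨s(x, y), ?_, ?_⟩
          · rw [mem_edgeFinset, mem_edgeSet, hJ, deleteIncidenceSet_adj]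
            exact ⟨hxyA, hvx.symm, hvy.symm⟩
          · rw [hsv]
            ext w
            simp [Sym2.mem_toFinset]
      · left
        rw [if_neg hxyA] at h2
        have hx : G.Adj v x := by
          by_contra h
          rw [if_neg h] at h2
          split_ifs at h2 <;> omega
        have hy : G.Adj v y := by
          by_contra h
          rw [if_neg h] at h2
          split_ifs at h2 <;> omega
        refine ⟨{x, y}, ?_, hsv.symm⟩
        rw [Finset.mem_powersetCard]
        refine ⟨?_, Finset.card_pair hxy⟩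
        intro w hw
        rw [Finset.mem_insert, Finset.mem_singleton] at hw
        rw [mem_neighborFinset]
        rcases hw with rfl | rfl
        · exact hx
        · exact hy
    · right
      exact ⟨hs, by rw [hJ, inside_delete G hv]; exact h2⟩
  have h1 := Set.ncard_le_ncard hsub (Set.toFinite _)
  have h2 := Set.ncard_union_le (((Finset.powersetCard 2 (G.neighborFinset v)).image (insert v) ∪
        J.edgeFinset.image (fun e => insert v e.toFinset) : Finset (Finset V)) :
        Set (Finset V)) {s : Finset V | s.card = 3 ∧ 2 ≤ inside J s}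
  rw [Set.ncard_coe_finset] at h2
  have h3 := Finset.card_union_le ((Finset.powersetCard 2 (G.neighborFinset v)).image (insert v))
    (J.edgeFinset.image (fun e => insert v e.toFinset))
  have h4 := card_pairs_image G v
  have h5 : (J.edgeFinset.image (fun e => insert v e.toFinset)).card ≤ J.edgeFinset.card :=
    Finset.card_image_le
  have h6 : J.edgeFinset.card = J.edgeSet.ncard := by
    rw [← coe_edgeFinset, Set.ncard_coe_finset]
  unfold mm
  omega

lemma mm_eq_zero (G : SimpleGraph V) (h : ∀ v, dg G v ≤ 1) : mm G = 0 := by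
  classical
  unfold mm
  rw [Set.ncard_eq_zero (Set.toFinite _), Set.eq_empty_iff_forall_notMem]
  rintro s ⟨hs, h2⟩
  obtain ⟨x, y, z, hxy, hxz, hyz, rfl⟩ := Finset.card_eq_three.1 hs
  rw [inside_three G hxy hxz hyz] at h2
  have key : ∀ a b c : V, b ≠ c → G.Adj a b → G.Adj a c → False := by
    intro a b c hbc hab hac
    have h1 := h a
    unfold dg at h1
    rw [Set.ncard_le_one_iff] at h1
    exact hbc (h1 hab hac)
  by_cases h1 : G.Adj x y <;> by_cases h3 : G.Adj x z <;> by_cases h4 : G.Adj y z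
  · exact key x y z hyz h1 h3
  · exact key x y z hyz h1 h3
  · exact key y x z hxz h1.symm h4
  · simp [h1, h3, h4] at h2
  · exact key z x y hxy h3.symm h4.symm
  · simp [h1, h3, h4] at h2
  · simp [h1, h3, h4] at h2
  · simp [h1, h3, h4] at h2

end basic

/-- Twice a binomial coefficient. -/
lemma two_choose (n : ℕ) : 2 * ((n.choose 2 : ℕ) : ℤ) = (n : ℤ) * (n - 1) := by
  induction n with
  | zero => simp
  | succ n ih =>
    rw [Nat.choose_succ_succ' n 1, Nat.choose_one_right]
    push_cast
    linarith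

/-- **The key upper bound.**  If all degrees are at most `D ≤ t`, then
`m(G) ≤ C(D,2) + C(t-D+1,2)`. -/
lemma key_upper [Fintype V] [DecidableEq V] (t : ℕ) : ∀ (G : SimpleGraph V),
    G.edgeSet.ncard = t → ∀ D : ℕ, (∀ v, dg G v ≤ D) → D ≤ t →
    mm G ≤ D.choose 2 + (t - D + 1).choose 2 := by
  classical
  induction t using Nat.strong_induction_on with
  | _ t ih =>
    intro G hG D hD hDt
    by_cases hsmall : ∀ v, dg G v ≤ 1
    · rw [mm_eq_zero G hsmall]; exact Nat.zero_le _
    push Not at hsmall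
    obtain ⟨v₀, hv₀⟩ := hsmall
    -- a vertex of maximum degree
    obtain ⟨v, _, hv⟩ := Finset.exists_max_image Finset.univ (dg G) ⟨v₀, Finset.mem_univ _⟩
    have hmax : ∀ w, dg G w ≤ dg G v := fun w => hv w (Finset.mem_univ w)
    set Δ := dg G v with hΔ
    have hΔ2 : 2 ≤ Δ := le_trans hv₀ (hmax v₀)
    have hΔD : Δ ≤ D := hD v
    have hJ := ncard_delete G v
    have hle := mm_le_delete G v
    rw [← hΔ] at hJ hle
    set J := G.deleteIncidenceSet v with hJdef
    have hJe : J.edgeSet.ncard = t - Δ := by omega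
    have hJt : t - Δ < t := by omega
    have hJdeg : ∀ w, dg J w ≤ Δ := fun w => le_trans (dg_delete_le G v w) (hmax w)
    rw [hJe] at hle
    -- the trivial bound for `J`
    have htriv : mm J ≤ (t - Δ).choose 2 := by
      by_cases hdd : ∀ w, dg J w ≤ t - Δ
      · have := ih (t - Δ) hJt J hJe (t - Δ) hdd le_rfl
        simpa using this
      · push Not at hdd
        obtain ⟨w, hw⟩ := hdd
        have := ncard_delete J w
        omega
    have hgoal1 : mm G ≤ Δ.choose 2 + (t - Δ + 1).choose 2 := by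
      have : (t - Δ + 1).choose 2 = (t - Δ) + (t - Δ).choose 2 := by
        rw [Nat.choose_succ_succ' (t - Δ) 1, Nat.choose_one_right]
      omega
    by_cases hcase : D = Δ
    · rw [hcase]; exact hgoal1
    have hlt : Δ < D := lt_of_le_of_ne hΔD (Ne.symm hcase)
    obtain ⟨x, rfl⟩ := Nat.exists_eq_add_of_lt hlt
    by_cases hcase2 : t < (Δ + x + 1) + Δ
    · -- numeric comparison
      refine le_trans hgoal1 ?_
      obtain ⟨z, rfl⟩ := Nat.exists_eq_add_of_le hDt
      have e1 : Δ + x + 1 + z - Δ + 1 = x + z + 2 := by omega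
      have e2 : Δ + x + 1 + z - (Δ + x + 1) + 1 = z + 1 := by omega
      rw [e1, e2]
      have hz : z + 1 ≤ Δ := by omega
      have c1 := two_choose Δ
      have c2 := two_choose (x + z + 2)
      have c3 := two_choose (Δ + x + 1)
      have c4 := two_choose (z + 1)
      push_cast at c1 c2 c3 c4
      have hz' : ((z : ℤ) + 1) ≤ Δ := by exact_mod_cast hz
      have hx' : (0 : ℤ) ≤ x := Int.natCast_nonneg x
      zify
      nlinarith
    · push Not at hcase2
      -- use the induction hypothesis with `D - 1`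
      have hD1 := ih (t - Δ) hJt J hJe (Δ + x) (fun w => le_trans (hJdeg w) (by omega)) (by omega)
      obtain ⟨y, rfl⟩ := Nat.exists_eq_add_of_le hcase2
      have e1 : Δ + x + 1 + Δ + y - Δ - (Δ + x) + 1 = y + 2 := by omega
      have e2 : Δ + x + 1 + Δ + y - (Δ + x + 1) + 1 = Δ + y + 1 := by omega
      have e3 : Δ + x + 1 + Δ + y - Δ = Δ + x + 1 + y := by omega
      rw [e1] at hD1
      rw [e2]
      rw [e3] at hle
      have c1 := two_choose Δ
      have c2 := two_choose (Δ + x)
      have c3 := two_choose (Δ + x + 1)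
      have c4 := two_choose (y + 2)
      have c5 := two_choose (Δ + y + 1)
      push_cast at c1 c2 c3 c4 c5
      have hy' : (0 : ℤ) ≤ y := Int.natCast_nonneg y
      have hΔ' : (2 : ℤ) ≤ Δ := by exact_mod_cast hΔ2
      zify at hle hD1 ⊢
      nlinarith

/-! ### Adding an edge -/

section add

variable {G : SimpleGraph V} {x y : V}

lemma adj_other {a z : V} (hx : a ≠ x) (hy : a ≠ y) :
    (G ⊔ SimpleGraph.edge x y).Adj a z ↔ G.Adj a z := by
  rw [sup_adj, SimpleGraph.edge_adj]
  constructor
  · rintro (h | ⟨⟨h, _⟩ | ⟨h, _⟩, _⟩)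
    · exact h
    · exact absurd h hx
    · exact absurd h hy
  · intro h; exact Or.inl h

lemma edgeSet_add (hxy : x ≠ y) :
    (G ⊔ SimpleGraph.edge x y).edgeSet = insert s(x, y) G.edgeSet := by
  ext e
  induction e using Sym2.ind with
  | _ a b =>
    rw [mem_edgeSet, sup_adj, SimpleGraph.edge_adj, Set.mem_insert_iff, mem_edgeSet, Sym2.eq_iff]
    constructor
    · rintro (h | ⟨h, _⟩)
      · exact Or.inr h
      · left; tauto
    · rintro (h | h)
      · right
        refine ⟨by tauto, ?_⟩
        rcases h with ⟨rfl, rfl⟩ | ⟨rfl, rfl⟩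
        · exact hxy
        · exact hxy.symm
      · exact Or.inl h

lemma ncard_add [Finite V] (hxy : x ≠ y) (hn : ¬ G.Adj x y) :
    (G ⊔ SimpleGraph.edge x y).edgeSet.ncard = G.edgeSet.ncard + 1 := by
  rw [edgeSet_add hxy, Set.ncard_insert_of_notMem _ (Set.toFinite _)]
  rwa [mem_edgeSet]

lemma dg_add [Finite V] (hxy : x ≠ y) (hn : ¬ G.Adj x y) :
    dg (G ⊔ SimpleGraph.edge x y) x = dg G x + 1 := by
  unfold dg
  have : (G ⊔ SimpleGraph.edge x y).neighborSet x = insert y (G.neighborSet x) := by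
    ext z
    rw [mem_neighborSet, sup_adj, SimpleGraph.edge_adj, Set.mem_insert_iff, mem_neighborSet]
    constructor
    · rintro (h | ⟨⟨_, h⟩ | ⟨h, _⟩, _⟩)
      · exact Or.inr h
      · exact Or.inl h
      · exact absurd h hxy
    · rintro (rfl | h)
      · exact Or.inr ⟨Or.inl ⟨rfl, rfl⟩, hxy⟩
      · exact Or.inl h
  rw [this, Set.ncard_insert_of_notMem _ (Set.toFinite _)]
  rwa [mem_neighborSet]

lemma dg_other {a : V} (hx : a ≠ x) (hy : a ≠ y) :
    dg (G ⊔ SimpleGraph.edge x y) a = dg G a := by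
  unfold dg
  congr 1
  ext z
  rw [mem_neighborSet, mem_neighborSet, adj_other hx hy]

lemma mm_add [Fintype V] [DecidableEq V] (hxy : x ≠ y) (hn : ¬ G.Adj x y) :
    mm (G ⊔ SimpleGraph.edge x y) = mm G +
      {z | (G.Adj x z ∧ ¬ G.Adj y z) ∨ (¬ G.Adj x z ∧ G.Adj y z)}.ncard := by
  classical
  set Z : Set V := {z | (G.Adj x z ∧ ¬ G.Adj y z) ∨ (¬ G.Adj x z ∧ G.Adj y z)} with hZ
  set G' := G ⊔ SimpleGraph.edge x y with hG'
  have hZx : ∀ z ∈ Z, z ≠ x := by
    rintro z hz rfl
    rcases hz with ⟨h, _⟩ | ⟨_, h⟩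
    · exact G.loopless.irrefl _ h
    · exact hn h.symm
  have hZy : ∀ z ∈ Z, z ≠ y := by
    rintro z hz rfl
    rcases hz with ⟨h, _⟩ | ⟨_, h⟩
    · exact hn h
    · exact G.loopless.irrefl _ h
  have hG'adj : ∀ a b, G'.Adj a b ↔ G.Adj a b ∨ (a = x ∧ b = y) ∨ (a = y ∧ b = x) := by
    intro a b
    rw [hG', sup_adj, SimpleGraph.edge_adj]
    constructor
    · rintro (h | ⟨h, _⟩)
      · exact Or.inl h
      · right; tauto
    · rintro (h | h)
      · exact Or.inl h
      · right
        refine ⟨by tauto, ?_⟩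
        rcases h with ⟨rfl, rfl⟩ | ⟨rfl, rfl⟩
        · exact hxy
        · exact hxy.symm
  have h3 : ∀ z, z ≠ x → z ≠ y → inside G {x, y, z} =
      (if G.Adj x z then 1 else 0) + (if G.Adj y z then 1 else 0) := by
    intro z hzx hzy
    rw [inside_three G hxy hzx.symm hzy.symm, if_neg hn, zero_add]
  have h3' : ∀ z, z ≠ x → z ≠ y → inside G' {x, y, z} =
      1 + ((if G.Adj x z then 1 else 0) + (if G.Adj y z then 1 else 0)) := by
    intro z hzx hzy
    have e1 : G'.Adj x y := (hG'adj _ _).2 (Or.inr (Or.inl ⟨rfl, rfl⟩))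
    have e2 : G'.Adj x z ↔ G.Adj x z := by
      rw [hG'adj]; tauto
    have e3 : G'.Adj y z ↔ G.Adj y z := by
      rw [hG'adj]; tauto
    rw [inside_three G' hxy hzx.symm hzy.symm, if_pos e1]
    simp only [e2, e3]
  have hother : ∀ s : Finset V, s.card = 3 → ¬ (x ∈ s ∧ y ∈ s) → inside G' s = inside G s := by
    intro s _ hxs
    unfold inside
    congr 1
    ext e
    induction e using Sym2.ind with
    | _ a b =>
      simp only [Set.mem_ofPred_eq, mem_edgeSet, Sym2.mem_iff, forall_eq_or_imp, forall_eq]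
      rw [hG'adj]
      constructor
      · rintro ⟨h | ⟨rfl, rfl⟩ | ⟨rfl, rfl⟩, ha, hb⟩
        · exact ⟨h, ha, hb⟩
        · exact absurd ⟨ha, hb⟩ hxs
        · exact absurd ⟨hb, ha⟩ hxs
      · rintro ⟨h, ha, hb⟩
        exact ⟨Or.inl h, ha, hb⟩
  have hform : ∀ s : Finset V, s.card = 3 → x ∈ s → y ∈ s → ∃ z, z ≠ x ∧ z ≠ y ∧ s = {x, y, z} := by
    intro s hs hx hy
    have h1 : ((s.erase x).erase y).card = 1 := by
      rw [Finset.card_erase_of_mem (Finset.mem_erase.2 ⟨hxy.symm, hy⟩),
        Finset.card_erase_of_mem hx, hs]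
    obtain ⟨z, hz⟩ := Finset.card_eq_one.1 h1
    have hz' : z ∈ (s.erase x).erase y := by rw [hz]; simp
    rw [Finset.mem_erase, Finset.mem_erase] at hz'
    refine ⟨z, hz'.2.1, hz'.1, ?_⟩
    rw [← Finset.insert_erase hx, ← Finset.insert_erase (Finset.mem_erase.2 ⟨hxy.symm, hy⟩), hz]
  have hset : {s : Finset V | s.card = 3 ∧ 2 ≤ inside G' s} =
      {s : Finset V | s.card = 3 ∧ 2 ≤ inside G s} ∪ (fun z => {x, y, z}) '' Z := by
    ext s
    simp only [Set.mem_ofPred_eq, Set.mem_union, Set.mem_image]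
    constructor
    · rintro ⟨hs, h2⟩
      by_cases hxs : x ∈ s ∧ y ∈ s
      · obtain ⟨z, hzx, hzy, rfl⟩ := hform s hs hxs.1 hxs.2
        rw [h3' z hzx hzy] at h2
        rw [h3 z hzx hzy]
        by_cases h4 : G.Adj x z <;> by_cases h5 : G.Adj y z
        · left; exact ⟨hs, by simp [h4, h5]⟩
        · right; exact ⟨z, Or.inl ⟨h4, h5⟩, rfl⟩
        · right; exact ⟨z, Or.inr ⟨h4, h5⟩, rfl⟩
        · simp [h4, h5] at h2
      · left
        rw [hother s hs hxs] at h2
        exact ⟨hs, h2⟩
    · rintro (⟨hs, h2⟩ | ⟨z, hz, rfl⟩)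
      · refine ⟨hs, ?_⟩
        by_cases hxs : x ∈ s ∧ y ∈ s
        · obtain ⟨z, hzx, hzy, rfl⟩ := hform s hs hxs.1 hxs.2
          rw [h3 z hzx hzy] at h2
          rw [h3' z hzx hzy]
          omega
        · rw [hother s hs hxs]; exact h2
      · have hzx := hZx z hz
        have hzy := hZy z hz
        refine ⟨?_, ?_⟩
        · rw [Finset.card_eq_three]
          exact ⟨x, y, z, hxy, hzx.symm, hzy.symm, rfl⟩
        · rw [h3' z hzx hzy]
          rcases hz with ⟨h4, h5⟩ | ⟨h4, h5⟩ <;> simp [h4, h5]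
  have hdis : Disjoint {s : Finset V | s.card = 3 ∧ 2 ≤ inside G s}
      ((fun z => ({x, y, z} : Finset V)) '' Z) := by
    rw [Set.disjoint_left]
    rintro s ⟨hs, h2⟩ ⟨z, hz, hsz⟩
    have hsz' : ({x, y, z} : Finset V) = s := hsz
    rw [← hsz', h3 z (hZx z hz) (hZy z hz)] at h2
    rcases hz with ⟨h4, h5⟩ | ⟨h4, h5⟩ <;> simp [h4, h5] at h2
  unfold mm
  rw [hset, Set.ncard_union_eq hdis (Set.toFinite _) (Set.toFinite _), Set.InjOn.ncard_image]
  intro a ha b hb hab
  have hab' : ({x, y, a} : Finset V) = {x, y, b} := hab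
  have : a ∈ ({x, y, b} : Finset V) := by rw [← hab']; simp
  simp only [Finset.mem_insert, Finset.mem_singleton] at this
  rcases this with h | h | h
  · exact absurd h (hZx a ha)
  · exact absurd h (hZy a ha)
  · exact h

lemma mm_add_iso [Fintype V] [DecidableEq V] (hxy : x ≠ y) (hy : ∀ z, ¬ G.Adj y z) :
    mm (G ⊔ SimpleGraph.edge x y) = mm G + dg G x := by
  rw [mm_add hxy (fun h => hy x h.symm)]
  congr 1
  unfold dg
  congr 1
  ext z
  simp only [Set.mem_ofPred_eq, mem_neighborSet]
  have := hy z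
  tauto

lemma mm_add_leaf [Fintype V] [DecidableEq V] {v : V} (hxy : x ≠ y)
    (hy : ∀ z, G.Adj y z ↔ z = v) (hxv : x ≠ v) (hn : ¬ G.Adj x v) :
    mm (G ⊔ SimpleGraph.edge x y) = mm G + (dg G x + 1) := by
  rw [mm_add hxy (fun h => hxv ((hy x).1 h.symm))]
  congr 1
  unfold dg
  have : {z | (G.Adj x z ∧ ¬ G.Adj y z) ∨ (¬ G.Adj x z ∧ G.Adj y z)} =
      insert v (G.neighborSet x) := by
    ext z
    simp only [Set.mem_ofPred_eq, mem_neighborSet, Set.mem_insert_iff]
    rw [hy z]
    by_cases hz : z = v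
    · subst hz; simp [hn]
    · simp [hz]
  rw [this, Set.ncard_insert_of_notMem _ (Set.toFinite _)]
  rwa [mem_neighborSet]

end add

/-! ### The constructions -/

/-- A state of the construction: `v` has degree `dv`, `w` has degree `dw`, there are `l` leaves
attached to `v` and `i` further isolated vertices, `t` edges, and `m(G) = m`. -/
def St (n l i t m dv dw : ℕ) : Prop :=
  ∃ (G : SimpleGraph (Fin n)) (v w : Fin n) (L I : Finset (Fin n)),
    v ≠ w ∧ ¬ G.Adj v w ∧ v ∉ L ∧ w ∉ L ∧ v ∉ I ∧ w ∉ I ∧ Disjoint L I ∧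
    (∀ a ∈ L, ∀ z, G.Adj a z ↔ z = v) ∧ (∀ a ∈ I, ∀ z, ¬ G.Adj a z) ∧
    L.card = l ∧ I.card = i ∧ G.edgeSet.ncard = t ∧ mm G = m ∧ dg G v = dv ∧ dg G w = dw

lemma mm_bot [Fintype V] [DecidableEq V] : mm (⊥ : SimpleGraph V) = 0 := by
  apply mm_eq_zero
  intro v
  unfold dg
  simp

lemma st_init (n : ℕ) : St (n + 2) 0 n 0 0 0 0 := by
  refine ⟨⊥, 0, 1, ∅, Finset.univ \ {0, 1}, ?_, ?_, ?_, ?_, ?_, ?_, ?_, ?_, ?_, ?_, ?_, ?_, ?_,
    ?_, ?_⟩
  · simp
  · simp
  · simp
  · simp
  · simp
  · simp
  · simp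
  · simp
  · simp
  · simp
  · rw [Finset.card_sdiff_of_subset (Finset.subset_univ _), Finset.card_univ,
      Finset.card_pair (by simp)]
    simp
  · simp
  · exact mm_bot
  · unfold dg; simp
  · unfold dg; simp

/-- Attach an isolated vertex to `v`. -/
lemma st_A {n l i t m dv dw : ℕ} (h : St n l (i + 1) t m dv dw) :
    St n (l + 1) i (t + 1) (m + dv) (dv + 1) dw := by
  obtain ⟨G, v, w, L, I, hvw, hn, hvL, hwL, hvI, hwI, hLI, hL, hI, cL, cI, ht, hm, hdv, hdw⟩ := h
  obtain ⟨y, hy⟩ := Finset.card_pos.1 (show 0 < I.card by omega)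
  have hvy : v ≠ y := fun h => hvI (h ▸ hy)
  have hwy : w ≠ y := fun h => hwI (h ▸ hy)
  have hyL : y ∉ L := fun h => Finset.disjoint_left.1 hLI h hy
  have hnvy : ¬ G.Adj v y := fun h => hI y hy v h.symm
  refine ⟨G ⊔ SimpleGraph.edge v y, v, w, insert y L, I.erase y, hvw, ?_, ?_, ?_, ?_, ?_, ?_, ?_,
    ?_, ?_, ?_, ?_, ?_, ?_, ?_⟩
  · rw [SimpleGraph.adj_comm, adj_other hvw.symm hwy, SimpleGraph.adj_comm]; exact hn
  · simp [hvy, hvL]
  · simp [hwy, hwL]
  · simp [hvI]
  · simp [hwI]
  · rw [Finset.disjoint_left]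
    intro a ha
    rw [Finset.mem_insert] at ha
    rw [Finset.mem_erase]
    rintro ⟨h1, h2⟩
    rcases ha with h | h
    · exact h1 h
    · exact Finset.disjoint_left.1 hLI h h2
  · intro a ha z
    rw [Finset.mem_insert] at ha
    rcases ha with rfl | ha
    · rw [sup_adj, SimpleGraph.edge_adj]
      constructor
      · rintro (h | ⟨⟨h, _⟩ | ⟨_, h⟩, _⟩)
        · exact absurd h (hI a hy z)
        · exact absurd h hvy.symm
        · exact h
      · rintro rfl
        exact Or.inr ⟨Or.inr ⟨rfl, rfl⟩, hvy.symm⟩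
    · rw [adj_other (ne_of_mem_of_not_mem ha hvL) (ne_of_mem_of_not_mem ha hyL)]
      exact hL a ha z
  · intro a ha z
    rw [Finset.mem_erase] at ha
    rw [adj_other (ne_of_mem_of_not_mem ha.2 hvI) ha.1]
    exact hI a ha.2 z
  · rw [Finset.card_insert_of_notMem hyL, cL]
  · rw [Finset.card_erase_of_mem hy, cI]; omega
  · rw [ncard_add hvy hnvy, ht]
  · rw [mm_add_iso hvy (hI y hy), hm, hdv]
  · rw [dg_add hvy hnvy, hdv]
  · rw [dg_other hvw.symm hwy, hdw]

/-- Join `w` to a leaf of `v`. -/
lemma st_B {n l i t m dv dw : ℕ} (h : St n (l + 1) i t m dv dw) :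
    St n l i (t + 1) (m + (dw + 1)) dv (dw + 1) := by
  obtain ⟨G, v, w, L, I, hvw, hn, hvL, hwL, hvI, hwI, hLI, hL, hI, cL, cI, ht, hm, hdv, hdw⟩ := h
  obtain ⟨y, hy⟩ := Finset.card_pos.1 (show 0 < L.card by omega)
  have hvy : v ≠ y := fun h => hvL (h ▸ hy)
  have hwy : w ≠ y := fun h => hwL (h ▸ hy)
  have hyI : y ∉ I := fun h => Finset.disjoint_left.1 hLI hy h
  have hnwy : ¬ G.Adj w y := fun h => hvw.symm ((hL y hy w).1 h.symm)
  refine ⟨G ⊔ SimpleGraph.edge w y, v, w, L.erase y, I, hvw, ?_, ?_, ?_, ?_, ?_, ?_, ?_,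
    ?_, ?_, ?_, ?_, ?_, ?_, ?_⟩
  · rw [adj_other hvw hvy]; exact hn
  · simp [hvL]
  · simp [hwL]
  · exact hvI
  · exact hwI
  · exact Finset.disjoint_of_subset_left (Finset.erase_subset _ _) hLI
  · intro a ha z
    rw [Finset.mem_erase] at ha
    rw [adj_other (ne_of_mem_of_not_mem ha.2 hwL) ha.1]
    exact hL a ha.2 z
  · intro a ha z
    rw [adj_other (ne_of_mem_of_not_mem ha hwI) (ne_of_mem_of_not_mem ha hyI)]
    exact hI a ha z
  · rw [Finset.card_erase_of_mem hy, cL]; omega
  · exact cI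
  · rw [ncard_add hwy hnwy, ht]
  · rw [mm_add_leaf hwy (hL y hy) hvw.symm (fun h => hn h.symm), hm, hdw]
  · rw [dg_other hvw hvy, hdv]
  · rw [dg_add hwy hnwy, hdw]

/-- Attach an isolated vertex to `w`. -/
lemma st_C {n l i t m dv dw : ℕ} (h : St n l (i + 1) t m dv dw) :
    St n l i (t + 1) (m + dw) dv (dw + 1) := by
  obtain ⟨G, v, w, L, I, hvw, hn, hvL, hwL, hvI, hwI, hLI, hL, hI, cL, cI, ht, hm, hdv, hdw⟩ := h
  obtain ⟨y, hy⟩ := Finset.card_pos.1 (show 0 < I.card by omega)
  have hvy : v ≠ y := fun h => hvI (h ▸ hy)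
  have hwy : w ≠ y := fun h => hwI (h ▸ hy)
  have hyL : y ∉ L := fun h => Finset.disjoint_left.1 hLI h hy
  have hnwy : ¬ G.Adj w y := fun h => hI y hy w h.symm
  refine ⟨G ⊔ SimpleGraph.edge w y, v, w, L, I.erase y, hvw, ?_, ?_, ?_, ?_, ?_, ?_, ?_,
    ?_, ?_, ?_, ?_, ?_, ?_, ?_⟩
  · rw [adj_other hvw hvy]; exact hn
  · exact hvL
  · exact hwL
  · simp [hvI]
  · simp [hwI]
  · exact Finset.disjoint_of_subset_right (Finset.erase_subset _ _) hLI
  · intro a ha z
    rw [adj_other (ne_of_mem_of_not_mem ha hwL) (ne_of_mem_of_not_mem ha hyL)]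
    exact hL a ha z
  · intro a ha z
    rw [Finset.mem_erase] at ha
    rw [adj_other (ne_of_mem_of_not_mem ha.2 hwI) ha.1]
    exact hI a ha.2 z
  · exact cL
  · rw [Finset.card_erase_of_mem hy, cI]; omega
  · rw [ncard_add hwy hnwy, ht]
  · rw [mm_add_iso hwy (hI y hy), hm, hdw]
  · rw [dg_other hvw hvy, hdv]
  · rw [dg_add hwy hnwy, hdw]

/-- Add an isolated edge. -/
lemma st_E {n l i t m dv dw : ℕ} (h : St n l (i + 2) t m dv dw) :
    St n l i (t + 1) m dv dw := by
  obtain ⟨G, v, w, L, I, hvw, hn, hvL, hwL, hvI, hwI, hLI, hL, hI, cL, cI, ht, hm, hdv, hdw⟩ := h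
  obtain ⟨x, hx⟩ := Finset.card_pos.1 (show 0 < I.card by omega)
  obtain ⟨y, hy'⟩ := Finset.card_pos.1 (show 0 < (I.erase x).card by
    rw [Finset.card_erase_of_mem hx]; omega)
  have hyx : y ≠ x := (Finset.mem_erase.1 hy').1
  have hy : y ∈ I := (Finset.mem_erase.1 hy').2
  have hvx : v ≠ x := fun h => hvI (h ▸ hx)
  have hwx : w ≠ x := fun h => hwI (h ▸ hx)
  have hvy : v ≠ y := fun h => hvI (h ▸ hy)
  have hwy : w ≠ y := fun h => hwI (h ▸ hy)
  have hxL : x ∉ L := fun h => Finset.disjoint_left.1 hLI h hx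
  have hyL : y ∉ L := fun h => Finset.disjoint_left.1 hLI h hy
  have hnxy : ¬ G.Adj x y := hI x hx y
  have hdx : dg G x = 0 := by
    unfold dg
    rw [Set.ncard_eq_zero (Set.toFinite _), Set.eq_empty_iff_forall_notMem]
    exact hI x hx
  refine ⟨G ⊔ SimpleGraph.edge x y, v, w, L, (I.erase x).erase y, hvw, ?_, ?_, ?_, ?_, ?_, ?_, ?_,
    ?_, ?_, ?_, ?_, ?_, ?_, ?_⟩
  · rw [adj_other hvx hvy]; exact hn
  · exact hvL
  · exact hwL
  · simp [hvI]
  · simp [hwI]
  · exact Finset.disjoint_of_subset_right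
      ((Finset.erase_subset _ _).trans (Finset.erase_subset _ _)) hLI
  · intro a ha z
    rw [adj_other (ne_of_mem_of_not_mem ha hxL) (ne_of_mem_of_not_mem ha hyL)]
    exact hL a ha z
  · intro a ha z
    rw [Finset.mem_erase, Finset.mem_erase] at ha
    rw [adj_other ha.2.1 ha.1]
    exact hI a ha.2.2 z
  · exact cL
  · rw [Finset.card_erase_of_mem hy', Finset.card_erase_of_mem hx, cI]; omega
  · rw [ncard_add hyx.symm hnxy, ht]
  · rw [mm_add_iso hyx.symm (hI y hy), hm, hdx, add_zero]
  · rw [dg_other hvx hvy, hdv]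
  · rw [dg_other hwx hwy, hdw]

lemma choose_succ (n : ℕ) : (n + 1).choose 2 = n.choose 2 + n := by
  rw [Nat.choose_succ_succ' n 1, Nat.choose_one_right, add_comm]

lemma iter_A {n l i t M dv dw : ℕ} (k : ℕ) (h : St n l (i + k) t (M + dv.choose 2) dv dw) :
    St n (l + k) i (t + k) (M + (dv + k).choose 2) (dv + k) dw := by
  induction k generalizing i with
  | zero => exact h
  | succ k ih =>
    have e : i + (k + 1) = (i + 1) + k := by ring
    rw [e] at h
    have h1 := st_A (ih h)
    have e2 : M + (dv + (k + 1)).choose 2 = M + (dv + k).choose 2 + (dv + k) := by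
      rw [← add_assoc, choose_succ, add_assoc]
    rw [e2]
    exact h1

lemma iter_B {n l i t M dv dw : ℕ} (k : ℕ) (h : St n (l + k) i t (M + dw.choose 2) dv dw) :
    St n l i (t + k) (M + k + (dw + k).choose 2) dv (dw + k) := by
  induction k generalizing l with
  | zero => exact h
  | succ k ih =>
    have e : l + (k + 1) = (l + 1) + k := by ring
    rw [e] at h
    have h1 := st_B (ih h)
    have e2 : M + (k + 1) + (dw + (k + 1)).choose 2 =
        M + k + (dw + k).choose 2 + (dw + k + 1) := by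
      rw [← add_assoc dw, choose_succ]; ring
    rw [e2]
    exact h1

lemma iter_C {n l i t M dv dw : ℕ} (k : ℕ) (h : St n l (i + k) t (M + dw.choose 2) dv dw) :
    St n l i (t + k) (M + (dw + k).choose 2) dv (dw + k) := by
  induction k generalizing i with
  | zero => exact h
  | succ k ih =>
    have e : i + (k + 1) = (i + 1) + k := by ring
    rw [e] at h
    have h1 := st_C (ih h)
    have e2 : M + (dw + (k + 1)).choose 2 = M + (dw + k).choose 2 + (dw + k) := by
      rw [← add_assoc, choose_succ, add_assoc]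
    rw [e2]
    exact h1

lemma iter_E {n l i t m dv dw : ℕ} (k : ℕ) (h : St n l (i + 2 * k) t m dv dw) :
    St n l i (t + k) m dv dw := by
  induction k generalizing i with
  | zero => exact h
  | succ k ih =>
    have e : i + 2 * (k + 1) = (i + 2) + 2 * k := by ring
    rw [e] at h
    exact st_E (ih h)

/-- Existence of graphs with prescribed `m(G)`. -/
lemma exists_graph (n D p c e : ℕ) (hc : c ≤ D) (hn : D + p + 2 * e ≤ n) :
    ∃ G : SimpleGraph (Fin (n + 2)), G.edgeSet.ncard = D + (c + p) + e ∧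
      mm G = D.choose 2 + (c + p).choose 2 + c := by
  obtain ⟨r, rfl⟩ := Nat.exists_eq_add_of_le hn
  obtain ⟨l, rfl⟩ := Nat.exists_eq_add_of_le hc
  have h0 := st_init (c + l + p + 2 * e + r)
  have e1 : c + l + p + 2 * e + r = (r + 2 * e + p) + (c + l) := by ring
  rw [e1] at h0
  have h0' : St (r + 2 * e + p + (c + l) + 2) 0 (r + 2 * e + p + (c + l)) 0
      (0 + (0 : ℕ).choose 2) 0 0 := h0
  have h1 := iter_A (c + l) h0'
  simp only [zero_add] at h1
  have h1' : St (r + 2 * e + p + (c + l) + 2) (l + c) (r + 2 * e + p) (c + l)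
      ((c + l).choose 2 + (0 : ℕ).choose 2) (c + l) 0 := by
    rw [show l + c = c + l by ring]; exact h1
  have h2 := iter_B c h1'
  have h3 := iter_C p h2
  have h4 := iter_E e h3
  obtain ⟨G, _, _, _, _, _, _, _, _, _, _, _, _, _, _, _, ht, hm, _, _⟩ := h4
  rw [e1]
  refine ⟨G, ?_, ?_⟩
  · rw [ht]; ring
  · rw [hm]; simp only [zero_add]; ring

lemma split_rest (j : ℕ) : ∀ r : ℕ, r ≤ (j + 1).choose 2 →
    ∃ i c : ℕ, i ≤ j ∧ c ≤ i ∧ r = i.choose 2 + c := by
  induction j with
  | zero =>
    intro r hr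
    refine ⟨0, 0, le_rfl, le_rfl, ?_⟩
    simp at hr ⊢
    exact hr
  | succ j ih =>
    intro r hr
    by_cases h : (j + 1).choose 2 ≤ r
    · refine ⟨j + 1, r - (j + 1).choose 2, le_rfl, ?_, by omega⟩
      rw [choose_succ] at hr
      omega
    · obtain ⟨i, c, hi, hc, hr'⟩ := ih r (by omega)
      exact ⟨i, c, by omega, hc, hr'⟩

lemma exists_D (t m : ℕ) (hm : m ≤ t.choose 2) (ht : 1 ≤ t) :
    ∃ D, 1 ≤ D ∧ D ≤ t ∧ D.choose 2 ≤ m ∧ (D = t ∨ m < (D + 1).choose 2) := by
  induction t, ht using Nat.le_induction with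
  | base => exact ⟨1, le_rfl, le_rfl, by simp, Or.inl rfl⟩
  | succ t ht ih =>
    by_cases h : (t + 1).choose 2 ≤ m
    · exact ⟨t + 1, by omega, le_rfl, h, Or.inl rfl⟩
    · by_cases h2 : m ≤ t.choose 2
      · obtain ⟨D, h1, h3, h4, h5⟩ := ih h2
        refine ⟨D, h1, by omega, h4, Or.inr ?_⟩
        rcases h5 with rfl | h5
        · omega
        · exact h5
      · exact ⟨t, ht, by omega, by omega, Or.inr (by omega)⟩

/-- The gap condition (in natural numbers). -/
def Gap (t m : ℕ) : Prop :=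
  ∃ j : ℕ, 1 ≤ j ∧ j ≤ t ∧ (t - j).choose 2 + (j + 1).choose 2 < m ∧ m < (t - j + 1).choose 2

lemma exists_of_not_gap {n t m : ℕ} (hn : 2 * t ≤ n) (hm : m ≤ t.choose 2) (hg : ¬ Gap t m) :
    ∃ G : SimpleGraph (Fin (n + 2)), G.edgeSet.ncard = t ∧ mm G = m := by
  by_cases ht : t = 0
  · subst ht
    have h0 : m = 0 := by simpa using hm
    subst h0
    refine ⟨⊥, ?_, mm_bot⟩
    simp
  obtain ⟨D, hD1, hDt, hDm, hD⟩ := exists_D t m hm (by omega)
  have hr : m - D.choose 2 ≤ (t - D + 1).choose 2 := by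
    rcases hD with rfl | hD
    · omega
    · by_contra hlt
      push Not at hlt
      by_cases hDt' : D = t
      · subst hDt'
        omega
      · apply hg
        refine ⟨t - D, by omega, by omega, ?_, ?_⟩
        · rw [show t - (t - D) = D by omega]; omega
        · rw [show t - (t - D) = D by omega]; exact hD
  have hr2 : m - D.choose 2 ≤ D := by
    rcases hD with rfl | hD
    · omega
    · rw [choose_succ] at hD; omega
  obtain ⟨i, c, hi, hc, hrc⟩ := split_rest (t - D) _ hr
  obtain ⟨p, rfl⟩ := Nat.exists_eq_add_of_le hc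
  obtain ⟨G, hG1, hG2⟩ := exists_graph n D p c (t - D - (c + p)) (by omega) (by omega)
  refine ⟨G, ?_, ?_⟩
  · rw [hG1]; omega
  · rw [hG2]; omega

lemma not_gap {n t : ℕ} (G : SimpleGraph (Fin n)) (ht : G.edgeSet.ncard = t) : ¬ Gap t (mm G) := by
  rintro ⟨j, hj1, hjt, h1, h2⟩
  by_cases hdeg : ∀ v, dg G v ≤ t - j
  · have := key_upper t G ht (t - j) hdeg (by omega)
    rw [show t - (t - j) + 1 = j + 1 by omega] at this
    omega
  · push Not at hdeg
    obtain ⟨v, hv⟩ := hdeg
    have h3 := choose_le_mm G v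
    have h4 : (t - j + 1).choose 2 ≤ (dg G v).choose 2 := Nat.choose_le_choose 2 hv
    omega

/-- `a_t = t (n - t - 1)`. -/
def a (n t : ℕ) : ℤ := t * ((n : ℤ) - t - 1)

/-- `b_t = t (n - 2)`. -/
def b (n t : ℕ) : ℤ := t * ((n : ℤ) - 2)

lemma mm_le [Fintype V] [DecidableEq V] (G : SimpleGraph V) : mm G ≤ G.edgeSet.ncard.choose 2 := by
  have h : ∀ w, dg G w ≤ G.edgeSet.ncard := by
    intro w
    have := ncard_delete G w
    omega
  have := key_upper _ G rfl _ h le_rfl
  simpa using this

/-- **Main theorem.**  For every `n ≥ 3` and every `t` with `t (t + 1) < n - 2` (that is, for every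
`t ≤ t_max`), the integers of `[a_t, b_t]` that are missing from `S_t` are those `x` for which
`x - a_t` is odd, together with those for which
`(j - 1) (2 t - j) < x - a_t < 2 j (t - j - 1)` for some integer `j ≥ 1`. -/
theorem result (n t : ℕ) (hn : 3 ≤ n) (ht : (t : ℤ) * (t + 1) < n - 2) :
    Set.Icc (a n t) (b n t) \ S n t =
      {x | x ∈ Set.Icc (a n t) (b n t) ∧ (Odd (x - a n t) ∨
        ∃ j : ℤ, 1 ≤ j ∧ (j - 1) * (2 * t - j) < x - a n t ∧ x - a n t < 2 * j * (t - j - 1))} := by
  obtain ⟨n, rfl⟩ := Nat.exists_eq_add_of_le' (show 2 ≤ n by omega)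
  have hbt : b (n + 2) t = t * n := by
    unfold b; push_cast; ring
  have hat : a (n + 2) t = t * n - t * (t - 1) := by
    unfold a; push_cast; ring
  have hct := two_choose t
  have h2t : 2 * t ≤ n := by
    push_cast at ht
    zify
    nlinarith [mul_self_nonneg ((t : ℤ) - 1)]
  have hid : ∀ G : SimpleGraph (Fin (n + 2)), G.edgeSet.ncard = t →
      (frus G : ℤ) = t * n - 2 * mm G := by
    intro G hG
    have := frus_add G
    rw [hG, Fintype.card_fin] at this
    have e : n + 2 - 2 = n := by omega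
    rw [e] at this
    zify at this
    linarith
  ext x
  simp only [Set.mem_sdiff, Set.mem_ofPred_eq, Set.mem_Icc]
  constructor
  · rintro ⟨hx, hxS⟩
    refine ⟨hx, ?_⟩
    by_contra hcon
    push Not at hcon
    obtain ⟨hodd, hj⟩ := hcon
    rw [Int.not_odd_iff_even] at hodd
    obtain ⟨k, hk⟩ := hodd
    rw [hbt, hat] at hx
    rw [hat] at hk
    have hk0 : 0 ≤ k := by linarith [hx.1]
    have hk1 : k ≤ (t.choose 2 : ℕ) := by linarith [hx.2]
    obtain ⟨k', rfl⟩ := Int.eq_ofNat_of_zero_le hk0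
    have hk' : k' ≤ t.choose 2 := by exact_mod_cast hk1
    apply hxS
    have hng : ¬ Gap t (t.choose 2 - k') := by
      rintro ⟨j, hj1, hjt, h1, h2⟩
      obtain ⟨d, rfl⟩ := Nat.exists_eq_add_of_le hjt
      have e : j + d - j = d := by omega
      rw [e] at h1 h2
      have h := hj j (by exact_mod_cast hj1)
      rw [hat] at h
      have c1 := two_choose d
      have c2 := two_choose (d + 1)
      have c3 := two_choose (j + 1)
      have h1' : ((d.choose 2 : ℕ) : ℤ) + ((j + 1).choose 2 : ℕ) <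
          ((j + d).choose 2 : ℕ) - (k' : ℤ) := by
        have : d.choose 2 + (j + 1).choose 2 + k' < (j + d).choose 2 := by omega
        zify at this
        linarith
      have h2' : (((j + d).choose 2 : ℕ) : ℤ) - (k' : ℤ) < ((d + 1).choose 2 : ℕ) := by
        have : (j + d).choose 2 < (d + 1).choose 2 + k' := by omega
        zify at this
        linarith
      push_cast at c1 c2 c3 hct h hk ⊢
      have h3 := h (by nlinarith)
      nlinarith
    obtain ⟨G, hG1, hG2⟩ := exists_of_not_gap (n := n) h2t (Nat.sub_le _ k') hng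
    refine ⟨G, hG1, ?_⟩
    rw [hid G hG1, hG2, Nat.cast_sub hk']
    linarith
  · rintro ⟨hx, hor⟩
    refine ⟨hx, ?_⟩
    rintro ⟨G, hG, rfl⟩
    have hle := mm_le G
    rw [hG] at hle
    have hle' : ((mm G : ℕ) : ℤ) ≤ (t.choose 2 : ℕ) := by exact_mod_cast hle
    rw [hid G hG, hat] at hor
    rcases hor with hodd | ⟨j, hj1, h1, h2⟩
    · have : (t : ℤ) * n - 2 * mm G - (t * n - t * (t - 1)) = 2 * ((t.choose 2 : ℕ) - mm G) := by
        linarith
      rw [this] at hodd
      rw [← Int.not_even_iff_odd] at hodd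
      exact hodd (even_two_mul _)
    · apply not_gap G hG
      obtain ⟨j', rfl⟩ := Int.eq_ofNat_of_zero_le (show 0 ≤ j by linarith)
      have hpos : (0 : ℤ) < 2 * (j' : ℤ) * (t - j' - 1) := by
        refine lt_of_le_of_lt ?_ h2
        linarith
      have hjt : (j' : ℤ) + 1 < t := by
        by_contra hcon
        push Not at hcon
        have : 2 * (j' : ℤ) * (t - j' - 1) ≤ 0 := by
          apply mul_nonpos_of_nonneg_of_nonpos <;> linarith
        linarith
      have hjt' : j' + 1 < t := by exact_mod_cast hjt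
      refine ⟨j', by exact_mod_cast hj1, by omega, ?_, ?_⟩
      · obtain ⟨d, rfl⟩ := Nat.exists_eq_add_of_le (show j' ≤ t by omega)
        have e : j' + d - j' = d := by omega
        rw [e]
        have c1 := two_choose d
        have c3 := two_choose (j' + 1)
        push_cast at c1 c3 hct h1 h2
        zify
        nlinarith
      · obtain ⟨d, rfl⟩ := Nat.exists_eq_add_of_le (show j' ≤ t by omega)
        have e : j' + d - j' = d := by omega
        rw [e]
        have c2 := two_choose (d + 1)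
        push_cast at c2 hct h1 h2
        zify
        nlinarith

end Pool.Agent.Results.MP_5df1f6_co.MissingFrustratedCounts
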